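import Mathlib

namespace Pool.Agent.Lib.MP_1304b2_co

variable {V : Type*} [DecidableEq V]

/-- Moves of player `p` (`true` = White = Left, `false` = Black = Right) in the disjunctive sum of
the leaf-removal game (component `x.1`, the set of remaining vertices) and the integer game `x.2`. -/
def Move (T : SimpleGraph V) [DecidableRel T.Adj] (c : V → Bool) (p : Bool)
    (x y : Finset V × ℤ) : Prop :=
  (∃ v ∈ x.1, c v = p ∧ (x.1.filter (T.Adj v)).card ≤ 1 ∧ y = (x.1.erase v, x.2)) ∨
  (p = true ∧ 0 < x.2 ∧ y = (x.1, x.2 - 1)) ∨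
  (p = false ∧ x.2 < 0 ∧ y = (x.1, x.2 + 1))

/-- `LosesFirst T c p x`: player `p`, moving first from `x`, loses under normal play. -/
inductive LosesFirst (T : SimpleGraph V) [DecidableRel T.Adj] (c : V → Bool) (p : Bool) :
    Finset V × ℤ → Prop
  | intro (x : Finset V × ℤ) (reply : Finset V × ℤ → Finset V × ℤ)
      (h₁ : ∀ y, Move T c p x y → Move T c (!p) y (reply y))
      (h₂ : ∀ y, Move T c p x y → LosesFirst T c p (reply y)) : LosesFirst T c p x

/-- `x` lies on a path `q 0, …, q n` between the two inner ends `q 2` and `q (n - 2)` of blocking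
triples at both ends of the path. -/
def Trapped (T : SimpleGraph V) (c : V → Bool) (x : V) : Prop :=
  ∃ (n i : ℕ) (q : ℕ → V), Set.InjOn q (Set.Iic n) ∧ (∀ k < n, T.Adj (q k) (q (k + 1))) ∧
    2 ≤ i ∧ i + 2 ≤ n ∧ q i = x ∧
    c (q 0) ≠ c (q 1) ∧ c (q 1) = c (q 2) ∧
    c (q n) ≠ c (q (n - 1)) ∧ c (q (n - 1)) = c (q (n - 2))

end Pool.Agent.Lib.MP_1304b2_co
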