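import Pool.Agent.Lib.MP_1304b2_co.Defs

namespace Pool.Agent.Lib.MP_1304b2_co

open Finset

variable {V : Type*}

theorem exists_par {T : SimpleGraph V} (hT : T.IsTree) (r : V) :
    ∃ (par : V → V) (dep : V → ℕ), dep r = 0 ∧ ∀ u v, T.Adj u v →
      (par u = v ∧ dep u = dep v + 1) ∨ (par v = u ∧ dep v = dep u + 1) := by
  classical
  choose P hP hPu using fun v => hT.existsUnique_path r v
  refine ⟨fun v => (P v).penultimate, fun v => (P v).length, ?_, ?_⟩
  · have : P r = SimpleGraph.Walk.nil := (hPu r _ (by simp)).symm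
    simp [this]
  · intro u v huv
    by_cases h : u ∈ (P v).support
    · right
      have := hT.isAcyclic.path_concat (hP u) (hP v) huv h
      simp only [this]
      simp
    · left
      have h' := hT.isAcyclic.mem_support_of_ne_mem_support_of_adj_of_isPath (hP u) (hP v) huv h
      have := hT.isAcyclic.path_concat (hP v) (hP u) huv.symm h'
      simp only [this]
      simp

/-- Walking from `x` through `u` without backtracking inside `S` meets a blocking triple. -/
inductive Blk (T : SimpleGraph V) (c : V → Bool) (S : Finset V) : V → V → Prop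
  | base {x u z : V} : x ∈ S → u ∈ S → z ∈ S → T.Adj x u → T.Adj u z → c x = c u → c u ≠ c z →
      Blk T c S x u
  | step {x u w : V} : x ∈ S → T.Adj x u → Blk T c S u w → w ≠ x → Blk T c S x u

def Iness (T : SimpleGraph V) (c : V → Bool) (S : Finset V) (x : V) : Prop :=
  ∃ u u', u ≠ u' ∧ Blk T c S x u ∧ Blk T c S x u'

variable {T : SimpleGraph V} {c : V → Bool}

theorem Blk.left_mem {S : Finset V} {x u : V} (h : Blk T c S x u) : x ∈ S := by
  cases h <;> assumption

theorem Blk.adj {S : Finset V} {x u : V} (h : Blk T c S x u) : T.Adj x u := by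
  cases h <;> assumption

theorem Blk.right_mem {S : Finset V} {x u : V} (h : Blk T c S x u) : u ∈ S := by
  cases h with
  | base => assumption
  | step _ _ h _ => exact h.left_mem

theorem Blk.next {S : Finset V} {x u : V} (h : Blk T c S x u) :
    ∃ w ∈ S, T.Adj u w ∧ w ≠ x := by
  cases h with
  | @base _ _ z _ _ hz _ huz h1 h2 =>
    exact ⟨z, hz, huz, fun h => h2 (by rw [h, h1])⟩
  | step _ _ h hw => exact ⟨_, h.right_mem, h.adj, hw⟩

theorem Blk.mono {S S' : Finset V} (hS : S' ⊆ S) {x u : V} (h : Blk T c S' x u) :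
    Blk T c S x u := by
  induction h with
  | base h1 h2 h3 h4 h5 h6 h7 => exact .base (hS h1) (hS h2) (hS h3) h4 h5 h6 h7
  | step h1 h2 _ h4 ih => exact .step (hS h1) h2 ih h4

theorem Iness.mono {S S' : Finset V} (hS : S' ⊆ S) {x : V} (h : Iness T c S' x) :
    Iness T c S x := by
  obtain ⟨u, u', h1, h2, h3⟩ := h
  exact ⟨u, u', h1, h2.mono hS, h3.mono hS⟩

theorem Iness.other {S : Finset V} {x : V} (h : Iness T c S x) (y : V) :
    ∃ u, u ≠ y ∧ Blk T c S x u := by
  obtain ⟨u, u', h1, h2, h3⟩ := h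
  by_cases h : u = y
  · exact ⟨u', fun h' => h1 (h.trans h'.symm), h3⟩
  · exact ⟨u, h, h2⟩

theorem Iness.blk {S : Finset V} {x y : V} (h : Iness T c S x) (hy : y ∈ S) (hyx : T.Adj y x) :
    Blk T c S y x := by
  obtain ⟨u, h1, h2⟩ := h.other y
  exact .step hy hyx h2 h1

def Leaf (T : SimpleGraph V) (S : Finset V) (z : V) : Prop :=
  z ∈ S ∧ ∀ a ∈ S, ∀ b ∈ S, T.Adj z a → T.Adj z b → a = b

theorem Leaf.not_iness {S : Finset V} {z : V} (h : Leaf T S z) : ¬ Iness T c S z := by
  rintro ⟨u, u', h1, h2, h3⟩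
  exact h1 (h.2 u h2.right_mem u' h3.right_mem h2.adj h3.adj)

theorem Leaf.not_blk {S : Finset V} {z x : V} (h : Leaf T S z) : ¬ Blk T c S x z := by
  intro hb
  obtain ⟨w, hw, h1, h2⟩ := hb.next
  exact h2 (h.2 w hw x hb.left_mem h1 hb.adj.symm)

variable [DecidableEq V]

def Lost (T : SimpleGraph V) (c : V → Bool) (S : Finset V) (z x q : V) : Prop :=
  x ≠ z ∧ Blk T c S x q ∧ ¬ Blk T c (S.erase z) x q

theorem Lost.ne {S : Finset V} {z x q : V} (hz : Leaf T S z) (h : Lost T c S z x q) : q ≠ z := by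
  rintro rfl
  exact hz.not_blk h.2.1

theorem Lost.cases {S : Finset V} {z x q : V} (hz : Leaf T S z) (h : Lost T c S z x q) :
    (T.Adj q z ∧ c x = c q ∧ c q ≠ c z) ∨ ∃ w, w ≠ x ∧ Lost T c S z q w := by
  have hq := h.ne hz
  obtain ⟨hx, hb, hn⟩ := h
  cases hb with
  | @base _ _ w h1 h2 h3 h4 h5 h6 h7 =>
    left
    by_cases hw : w = z
    · subst hw; exact ⟨h5, h6, h7⟩
    · exact absurd (Blk.base (by simp [hx, h1]) (by simp [hq, h2]) (by simp [hw, h3])
        h4 h5 h6 h7) hn
  | @step _ _ w h1 h2 h3 h4 =>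
    right
    exact ⟨w, h4, hq, h3, fun h => hn (.step (by simp [hx, h1]) h2 h h4)⟩

theorem Lost.induction {S : Finset V} {z : V} (hz : Leaf T S z) (P : V → V → Prop)
    (hb : ∀ x q, Lost T c S z x q → T.Adj q z → c x = c q → c q ≠ c z → P x q)
    (hs : ∀ x q w, Lost T c S z x q → w ≠ x → Lost T c S z q w → P q w → P x q)
    {x q : V} (h : Lost T c S z x q) : P x q := by
  obtain ⟨hx, hb', hn⟩ := h
  induction hb' with
  | @base x q w h1 h2 h3 h4 h5 h6 h7 =>
    have hl : Lost T c S z x q := ⟨hx, .base h1 h2 h3 h4 h5 h6 h7, hn⟩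
    have hq := hl.ne hz
    by_cases hw : w = z
    · subst hw; exact hb x q hl h5 h6 h7
    · exact absurd (Blk.base (by simp [hx, h1]) (by simp [hq, h2]) (by simp [hw, h3])
        h4 h5 h6 h7) hn
  | @step x q w h1 h2 h3 h4 ih =>
    have hl : Lost T c S z x q := ⟨hx, .step h1 h2 h3 h4, hn⟩
    have hq := hl.ne hz
    have hn' : ¬ Blk T c (S.erase z) q w := fun h => hn (.step (by simp [hx, h1]) h2 h h4)
    exact hs x q w hl h4 ⟨hq, h3, hn'⟩ (ih hq hn')

theorem Lost.colour {S : Finset V} {z x q : V} (hz : Leaf T S z) (h : Lost T c S z x q) :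
    c x = c z → c q ≠ c z := by
  refine Lost.induction hz (fun x q => c x = c z → c q ≠ c z) ?_ ?_ h
  · intro x q _ _ _ h3 _
    exact h3
  · intro x q w hl hw hl' ih hx hq
    have hwz := ih hq
    refine hl.2.2 (.base ?_ ?_ ?_ hl.2.1.adj hl'.2.1.adj (by rw [hx, hq]) (by rw [hq]; exact hwz.symm))
    · simp [hl.1, hl.2.1.left_mem]
    · simp [hl'.1, hl'.2.1.left_mem]
    · simp [hl'.ne hz, hl'.2.1.right_mem]

theorem Lost.unique (hT : T.IsTree) {S : Finset V} {z : V} (hz : Leaf T S z) :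
    ∃ par : V → V, (∀ q, T.Adj q z → par q = z) ∧ ∀ x q, Lost T c S z x q → par x = q := by
  obtain ⟨par, dep, h0, hp⟩ := exists_par hT z
  have h1 : ∀ q, T.Adj q z → par q = z := by
    intro q hq
    rcases hp q z hq with h | h
    · exact h.1
    · omega
  refine ⟨par, h1, fun x q h => ?_⟩
  refine Lost.induction hz (fun x q => par x = q) ?_ ?_ h
  · intro x q hl hq _ _
    rcases hp x q hl.2.1.adj with h | h
    · exact h.1
    · exact absurd (h.1.symm.trans (h1 q hq)) hl.1
  · intro x q w hl hw _ ih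
    rcases hp x q hl.2.1.adj with h | h
    · exact h.1
    · exact absurd (ih.symm.trans h.1) hw

open Classical in
/-- essential vertices of colour `p` -/
noncomputable def ess (T : SimpleGraph V) (c : V → Bool) (S : Finset V) (p : Bool) : Finset V :=
  S.filter fun x => ¬ Iness T c S x ∧ c x = p

open Classical in
noncomputable def new (T : SimpleGraph V) (c : V → Bool) (S : Finset V) (z : V) (p : Bool) :
    Finset V :=
  (S.erase z).filter fun x => (Iness T c S x ∧ ¬ Iness T c (S.erase z) x) ∧ c x = p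

theorem card_ess_erase {S : Finset V} {z : V} (hz : Leaf T S z) (p : Bool) :
    (ess T c (S.erase z) p).card + (if c z = p then 1 else 0) =
      (ess T c S p).card + (new T c S z p).card := by
  have e : ess T c (S.erase z) p = (ess T c S p).erase z ∪ new T c S z p := by
    ext x
    simp only [ess, new, mem_filter, mem_union, mem_erase]
    constructor
    · rintro ⟨⟨h1, h2⟩, h3, h4⟩
      by_cases h : Iness T c S x
      · exact Or.inr ⟨⟨h1, h2⟩, ⟨h, h3⟩, h4⟩
      · exact Or.inl ⟨h1, h2, h, h4⟩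
    · rintro (⟨h1, h2, h3, h4⟩ | ⟨h1, ⟨_, h3⟩, h4⟩)
      · exact ⟨⟨h1, h2⟩, fun h => h3 (h.mono (erase_subset _ _)), h4⟩
      · exact ⟨h1, h3, h4⟩
  have hd : Disjoint ((ess T c S p).erase z) (new T c S z p) := by
    rw [Finset.disjoint_left]
    intro x hx hy
    simp only [ess, new, mem_filter, mem_erase] at hx hy
    exact hx.2.2.1 hy.2.1.1
  rw [e, card_union_of_disjoint hd]
  split_ifs with h
  · have : z ∈ ess T c S p := by
      simp only [ess, mem_filter]; exact ⟨hz.1, hz.not_iness, h⟩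
    have := card_erase_add_one this
    omega
  · have : z ∉ ess T c S p := by
      simp only [ess, mem_filter]; tauto
    rw [erase_eq_of_notMem this]; simp

theorem exists_lost {S : Finset V} {z u : V} (hu : u ≠ z) (h1 : Iness T c S u)
    (h2 : ¬ Iness T c (S.erase z) u) : ∃ q, Lost T c S z u q := by
  obtain ⟨a, b, hab, ha, hb⟩ := h1
  by_cases h : Blk T c (S.erase z) u a
  · exact ⟨b, hu, hb, fun h' => h2 ⟨a, b, hab, h, h'⟩⟩
  · exact ⟨a, hu, ha, h⟩

theorem Lost.iness_next {S : Finset V} {z x q w : V} (hl : Lost T c S z x q) (hw : w ≠ x)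
    (hl' : Lost T c S z q w) (hx : Iness T c S x) : Iness T c S q :=
  ⟨w, x, hw, hl'.2.1, hx.blk hl.2.1.right_mem hl.2.1.adj.symm⟩

theorem card_new_le (hT : T.IsTree) {S : Finset V} {z : V} (hz : Leaf T S z) :
    (new T c S z (c z)).card ≤ (new T c S z (!c z)).card := by
  obtain ⟨par, -, hpar⟩ := Lost.unique (c := c) hT hz
  have hl : ∀ u ∈ new T c S z (c z), Lost T c S z u (par u) := by
    intro u hu
    simp only [new, mem_filter, mem_erase] at hu
    obtain ⟨q, hq⟩ := exists_lost hu.1.1 hu.2.1.1 hu.2.1.2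
    rw [hpar u q hq]; exact hq
  refine Finset.card_le_card_of_injOn par ?_ ?_
  · intro u hu
    have hlu := hl u hu
    simp only [new, coe_filter, mem_erase, Set.mem_ofPred_eq] at hu ⊢
    have hc := hlu.colour hz hu.2.2
    refine ⟨⟨hlu.ne hz, hlu.2.1.right_mem⟩, ⟨?_, ?_⟩, Bool.eq_not_of_ne hc⟩
    · rcases hlu.cases hz with h | ⟨w, hw, hl'⟩
      · exact absurd (h.2.1.symm.trans hu.2.2) h.2.2
      · exact hlu.iness_next hw hl' hu.2.1.1
    · intro h
      exact hlu.2.2 (h.blk (by simp [hu.1]) hlu.2.1.adj)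
  · intro u hu u' hu' huu
    by_contra hne
    have hlu := hl u hu
    have hlu' := hl u' hu'
    simp only [new, coe_filter, mem_erase, Set.mem_ofPred_eq] at hu hu'
    obtain ⟨d, hd, hb⟩ := hu'.2.1.1.other (par u')
    by_cases h : Blk T c (S.erase z) u' d
    · have h1 : Blk T c (S.erase z) (par u') u' :=
        .step (by simp [hlu'.ne hz, hlu'.2.1.right_mem]) hlu'.2.1.adj.symm h hd
      rw [← huu] at h1
      exact hlu.2.2 (.step (by simp [hu.1]) hlu.2.1.adj h1 (Ne.symm hne))
    · exact hd (hpar u' d ⟨hu'.1.1, hb, h⟩).symm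

theorem exists_key {S : Finset V} {z u : V} (hz : Leaf T S z) (hu : u ≠ z) (h1 : Iness T c S u)
    (h2 : ¬ Iness T c (S.erase z) u) :
    ∃ x y, T.Adj y z ∧ c x = c y ∧ c y ≠ c z ∧ Iness T c S x ∧ Lost T c S z x y := by
  obtain ⟨q, hq⟩ := exists_lost hu h1 h2
  revert h1
  refine Lost.induction hz (fun u _ => Iness T c S u →
    ∃ x y, T.Adj y z ∧ c x = c y ∧ c y ≠ c z ∧ Iness T c S x ∧ Lost T c S z x y) ?_ ?_ hq
  · intro x q hl h1 h2 h3 h4
    exact ⟨x, q, h1, h2, h3, h4, hl⟩
  · intro x q w hl hw hl' ih hx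
    exact ih (hl.iness_next hw hl' hx)

theorem free_colour (hT : T.IsTree) {S : Finset V} {p : Bool}
    (hS : ∀ z, Leaf T S z → c z = p → ∃ y ∈ S, T.Adj y z ∧ c y ≠ p)
    {u v : V} (hu : u ∈ S) (hv : v ∈ S) (huv : T.Adj u v) (hf : ¬ Blk T c S u v) (hcu : c u = p) :
    c v ≠ p := by
  classical
  intro hcv
  obtain ⟨par, dep, h0, hp⟩ := exists_par hT u
  let D := S.filter fun b => par b ∈ S ∧ T.Adj (par b) b ∧ dep b = dep (par b) + 1 ∧
    ¬ Blk T c S (par b) b ∧ c (par b) = p ∧ c b = p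
  have hvD : v ∈ D := by
    rcases hp u v huv with h | h
    · omega
    · simp only [D, mem_filter, h.1]
      exact ⟨hv, hu, huv, h.2, hf, hcu, hcv⟩
  obtain ⟨b, hb, hmax⟩ := Finset.exists_max_image D dep ⟨v, hvD⟩
  simp only [D, mem_filter] at hb
  obtain ⟨hbS, haS, hab, hdep, hfb, hca, hcb⟩ := hb
  by_cases hleaf : ∃ w ∈ S, T.Adj b w ∧ w ≠ par b
  · obtain ⟨w, hw, hbw, hne⟩ := hleaf
    rcases hp b w hbw with h | h
    · exact hne h.1.symm
    · have hwD : w ∈ D := by
        simp only [D, mem_filter, h.1]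
        refine ⟨hw, hbS, hbw, h.2, fun hh => hfb (.step haS hab hh hne), hcb, ?_⟩
        by_contra hcw
        exact hfb (.base haS hbS hw hab hbw (by rw [hca, hcb]) (by rw [hcb]; exact Ne.symm hcw))
      have := hmax w hwD
      omega
  · push Not at hleaf
    have hl : Leaf T S b := ⟨hbS, fun a ha a' ha' h1 h2 => by rw [hleaf a ha h1, hleaf a' ha' h2]⟩
    obtain ⟨y, hy, hyb, hcy⟩ := hS b hl hcb
    rw [hleaf y hy hyb.symm] at hcy
    exact hcy hca

theorem card_ess_le (hT : T.IsTree) {S : Finset V} {p : Bool}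
    (hS : ∀ z, Leaf T S z → c z = p →
      ∃ x y, T.Adj y z ∧ c x = c y ∧ c y ≠ c z ∧ Iness T c S x ∧ Lost T c S z x y) :
    (ess T c S p).card ≤ (ess T c S (!p)).card := by
  classical
  obtain ⟨r⟩ := hT.connected.nonempty
  obtain ⟨par, dep, -, hp⟩ := exists_par hT r
  have hS' : ∀ z, Leaf T S z → c z = p → ∃ y ∈ S, T.Adj y z ∧ c y ≠ p := by
    intro z hz hc
    obtain ⟨x, y, h1, _, h3, _, h5⟩ := hS z hz hc
    exact ⟨y, h5.2.1.right_mem, h1, hc ▸ h3⟩
  have ex : ∀ u, ∃ v, u ∈ ess T c S p →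
      (Leaf T S u ∧ ∃ x, T.Adj v u ∧ c x = c v ∧ c v ≠ c u ∧ Iness T c S x ∧ Lost T c S u x v) ∨
      (¬ Leaf T S u ∧ v ∈ S ∧ T.Adj u v ∧ ¬ Blk T c S u v ∧
        ((∃ d, d ≠ v ∧ Blk T c S u d) ∨ par v = u)) := by
    intro u
    by_cases hu : u ∈ ess T c S p
    swap
    · exact ⟨u, fun h => absurd h hu⟩
    simp only [ess, mem_filter] at hu
    by_cases hl : Leaf T S u
    · obtain ⟨x, y, h⟩ := hS u hl hu.2.2
      exact ⟨y, fun _ => Or.inl ⟨hl, x, h⟩⟩
    · have two : ∀ d, ∃ v ∈ S, T.Adj u v ∧ v ≠ d := by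
        intro d
        by_contra hcon
        push Not at hcon
        exact hl ⟨hu.1, fun a ha b hb h1 h2 => by rw [hcon a ha h1, hcon b hb h2]⟩
      by_cases hd : ∃ d, Blk T c S u d
      · obtain ⟨d, hd⟩ := hd
        obtain ⟨v, hv, huv, hvd⟩ := two d
        exact ⟨v, fun _ => Or.inr ⟨hl, hv, huv, fun h => hu.2.1 ⟨v, d, hvd, h, hd⟩,
          Or.inl ⟨d, hvd.symm, hd⟩⟩⟩
      · obtain ⟨v, hv, huv, hvd⟩ := two (par u)
        refine ⟨v, fun _ => Or.inr ⟨hl, hv, huv, fun h => hd ⟨v, h⟩, Or.inr ?_⟩⟩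
        rcases hp u v huv with h | h
        · exact absurd h.1.symm hvd
        · exact h.1
  choose φ hφ using ex
  have hmem : ∀ u ∈ ess T c S p, u ∈ S ∧ c u = p := by
    intro u hu
    simp only [ess, mem_filter] at hu
    exact ⟨hu.1, hu.2.2⟩
  refine Finset.card_le_card_of_injOn φ ?_ ?_
  · intro u hu
    obtain ⟨huS, hcu⟩ := hmem u hu
    simp only [ess, coe_filter, Set.mem_ofPred_eq]
    rcases hφ u hu with ⟨hl, x, h1, h2, h3, h4, h5⟩ | ⟨hl, h1, h2, h3, -⟩
    · refine ⟨h5.2.1.right_mem, ?_, by rw [← hcu]; exact Bool.eq_not_of_ne h3⟩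
      intro hi
      obtain ⟨a, ha, hb⟩ := hi.other x
      obtain ⟨par', hp1, hp2⟩ := Lost.unique (c := c) hT hl
      by_cases h : Blk T c (S.erase u) (φ u) a
      · exact h5.2.2 (.step (by simp [h5.1, h5.2.1.left_mem]) h5.2.1.adj h ha)
      · have h6 : Lost T c S u (φ u) a := ⟨h1.ne, hb, h⟩
        exact h6.ne hl ((hp2 _ _ h6).symm.trans (hp1 _ h1))
    · refine ⟨h1, fun hi => h3 (hi.blk huS h2), ?_⟩
      exact Bool.eq_not_of_ne (free_colour hT hS' huS h1 h2 h3 hcu)
  · have mixed : ∀ u u' v x, u' ∈ S → c u = p → c u' = p → c x = c v → c v ≠ c u →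
        Iness T c S x → Lost T c S u x v → T.Adj u' v → ¬ Blk T c S u' v → False := by
      intro u u' v x hu' hcu hcu' h2 h3 h4 h5 h6 h7
      refine h7 (.step hu' h6 (h4.blk h5.2.1.right_mem h5.2.1.adj.symm) ?_)
      rintro rfl
      exact h3 (by rw [← h2, hcu, hcu'])
    have nonleaf : ∀ u u' v d, u ≠ u' → u' ∈ S → v ∈ S → T.Adj u v → T.Adj u' v → d ≠ v →
        Blk T c S u d → ¬ Blk T c S u' v → False := by
      intro u u' v d h1 h2 h3 h4 h5 h6 h7 h8
      exact h8 (.step h2 h5 (.step h3 h4.symm h7 h6) h1)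
    intro u hu u' hu' huu
    by_contra hne
    obtain ⟨huS, hcu⟩ := hmem u hu
    obtain ⟨huS', hcu'⟩ := hmem u' hu'
    have g := hφ u hu
    have g' := hφ u' hu'
    rw [← huu] at g'
    rcases g with ⟨hl, x, h1, h2, h3, h4, h5⟩ | ⟨hl, h1, h2, h3, h4⟩
    · rcases g' with ⟨hl', x', h1', h2', h3', h4', h5'⟩ | ⟨hl', h1', h2', h3', h4'⟩
      · refine h5.2.2 (.base ?_ ?_ ?_ h5.2.1.adj h1' h2 h3')
        · simp [h5.1, h5.2.1.left_mem]
        · simp [h1.ne, h5.2.1.right_mem]
        · simp [Ne.symm hne, huS']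
      · exact mixed u u' _ x huS' hcu hcu' h2 h3 h4 h5 h2' h3'
    · rcases g' with ⟨hl', x', h1', h2', h3', h4', h5'⟩ | ⟨hl', h1', h2', h3', h4'⟩
      · exact mixed u' u _ x' huS hcu' hcu h2' h3' h4' h5' h2 h3
      · rcases h4 with ⟨d, hd, hb⟩ | h4
        · exact nonleaf u u' _ d hne huS' h1 h2 h2' hd hb h3'
        · rcases h4' with ⟨d, hd, hb⟩ | h4'
          · exact nonleaf u' u _ d (Ne.symm hne) huS h1 h2' h2 hd hb h3
          · exact hne (h4.symm.trans h4')

/-- essential count from the point of view of player `p` -/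
noncomputable def val (T : SimpleGraph V) (c : V → Bool) (S : Finset V) (p : Bool) : ℤ :=
  ((ess T c S p).card : ℤ) - (ess T c S (!p)).card

theorem val_erase_le (hT : T.IsTree) {S : Finset V} {z : V} (hz : Leaf T S z) :
    val T c (S.erase z) (c z) + 1 ≤ val T c S (c z) := by
  have h1 := card_ess_erase (c := c) hz (c z)
  have h2 := card_ess_erase (c := c) hz (!c z)
  have h3 := card_new_le (c := c) hT hz
  simp only [if_true] at h1
  rw [if_neg (by simp)] at h2
  unfold val
  omega

theorem exists_good (hT : T.IsTree) {S : Finset V} {p : Bool} (h : 1 ≤ val T c S p) :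
    ∃ z, Leaf T S z ∧ c z = p ∧ val T c S p ≤ val T c (S.erase z) p + 1 := by
  by_contra hcon
  push Not at hcon
  have : (ess T c S p).card ≤ (ess T c S (!p)).card := by
    refine card_ess_le hT fun z hz hc => ?_
    have h0 := hcon z hz hc
    have h1 := card_ess_erase (c := c) hz p
    have h2 := card_ess_erase (c := c) hz (!p)
    rw [if_pos hc] at h1
    rw [if_neg (by simp [hc])] at h2
    unfold val at h0
    obtain ⟨u, hu⟩ : (new T c S z (!p)).Nonempty := Finset.card_pos.mp (by omega)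
    simp only [new, mem_filter, mem_erase] at hu
    exact exists_key hz hu.1.1 hu.2.1.1 hu.2.1.2
  unfold val at h
  omega

theorem leaf_iff [DecidableRel T.Adj] {S : Finset V} {v : V} (hv : v ∈ S) :
    (S.filter (T.Adj v)).card ≤ 1 ↔ Leaf T S v := by
  rw [Finset.card_le_one]
  simp only [mem_filter, Leaf, hv, true_and]
  exact ⟨fun h a ha b hb h1 h2 => h a ⟨ha, h1⟩ b ⟨hb, h2⟩, fun h a ha b hb => h a ha.1 b hb.1 ha.2 hb.2⟩

theorem val_not (S : Finset V) (p : Bool) : val T c S (!p) = - val T c S p := by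
  unfold val; simp

theorem loses [DecidableRel T.Adj] (hT : T.IsTree) (p : Bool) (n : ℕ) :
    ∀ x : Finset V × ℤ, x.1.card + x.2.natAbs ≤ n →
      val T c x.1 p + (if p then x.2 else -x.2) ≤ 0 → LosesFirst T c p x := by
  induction n using Nat.strong_induction_on with
  | _ n ih =>
    intro x hx hv
    have first : ∀ y, Move T c p x y → y.1.card + y.2.natAbs < n ∧
        val T c y.1 p + (if p then y.2 else -y.2) ≤ -1 := by
      rintro y (⟨v, hvS, hc, hl, rfl⟩ | ⟨rfl, h, rfl⟩ | ⟨rfl, h, rfl⟩)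
      · have h1 := val_erase_le (c := c) hT ((leaf_iff hvS).mp hl)
        have h2 := card_erase_add_one hvS
        rw [hc] at h1
        simp only
        omega
      · simp only [if_true] at hv ⊢
        omega
      · simp only [Bool.false_eq_true, if_false] at hv ⊢
        omega
    have second : ∀ y : Finset V × ℤ, val T c y.1 p + (if p then y.2 else -y.2) ≤ -1 →
        ∃ r, Move T c (!p) y r ∧ r.1.card + r.2.natAbs ≤ y.1.card + y.2.natAbs ∧
          val T c r.1 p + (if p then r.2 else -r.2) ≤ 0 := by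
      intro y hy
      by_cases h : (if p then y.2 else -y.2) < 0
      · cases p
        · simp only [Bool.false_eq_true, if_false] at h hy ⊢
          exact ⟨(y.1, y.2 - 1), Or.inr (Or.inl ⟨rfl, by omega, rfl⟩), by simp only; omega,
            by simp only; omega⟩
        · simp only [if_true] at h hy ⊢
          exact ⟨(y.1, y.2 + 1), Or.inr (Or.inr ⟨rfl, by omega, rfl⟩), by simp only; omega,
            by simp only; omega⟩
      · have h1 : 1 ≤ val T c y.1 (!p) := by rw [val_not]; omega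
        obtain ⟨z, hz, hc, h2⟩ := exists_good hT h1
        rw [val_not, val_not] at h2
        have h3 := card_erase_add_one hz.1
        exact ⟨(y.1.erase z, y.2), Or.inl ⟨z, hz.1, hc, (leaf_iff hz.1).mpr hz, rfl⟩,
          by simp only; omega, by simp only; omega⟩
    have : ∀ y : Finset V × ℤ, ∃ r, Move T c p x y → (Move T c (!p) y r ∧ LosesFirst T c p r) := by
      intro y
      by_cases hy : Move T c p x y
      · obtain ⟨h1, h2⟩ := first y hy
        obtain ⟨r, h3, h4, h5⟩ := second y h2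
        exact ⟨r, fun _ => ⟨h3, ih _ h1 r h4 h5⟩⟩
      · exact ⟨y, fun h => absurd h hy⟩
    choose reply hr using this
    exact .intro x reply (fun y hy => (hr y hy).1) (fun y hy => (hr y hy).2)

omit [DecidableEq V] in
theorem Blk.seq {S : Finset V} {x u : V} (h : Blk T c S x u) :
    ∃ (k : ℕ) (r : ℕ → V), r 0 = x ∧ r 1 = u ∧ (∀ j < k + 2, T.Adj (r j) (r (j + 1))) ∧
      (∀ j ≤ k, r j ≠ r (j + 2)) ∧ c (r (k + 2)) ≠ c (r (k + 1)) ∧ c (r (k + 1)) = c (r k) := by
  induction h with
  | @base x u z _ _ _ h4 h5 h6 h7 =>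
    refine ⟨0, fun j => if j = 0 then x else if j = 1 then u else z, by simp, by simp, ?_, ?_,
      by simpa using h7.symm, by simpa using h6.symm⟩
    · intro j hj
      obtain rfl | rfl : j = 0 ∨ j = 1 := by omega
      · simpa using h4
      · simpa using h5
    · intro j hj
      obtain rfl : j = 0 := by omega
      simp only [if_true]
      simp only [zero_add, OfNat.ofNat_ne_zero, if_false, OfNat.ofNat_ne_one]
      rintro rfl
      exact h7 h6.symm
  | @step x u w _ h2 _ h4 ih =>
    obtain ⟨k, r, g0, g1, g2, g3, g4, g5⟩ := ih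
    refine ⟨k + 1, fun j => Nat.casesOn j x r, rfl, g0, ?_, ?_, g4, g5⟩
    · intro j hj
      cases j with
      | zero => simpa [g0] using h2
      | succ j => exact g2 j (by omega)
    · intro j hj
      cases j with
      | zero => simpa [g1] using h4.symm
      | succ j => exact g3 j (by omega)

omit [DecidableEq V] in
theorem injOn_of_nb (hT : T.IsTree) (n : ℕ) (q : ℕ → V) (h1 : ∀ k < n, T.Adj (q k) (q (k + 1)))
    (h2 : ∀ k, k + 2 ≤ n → q k ≠ q (k + 2)) : Set.InjOn q (Set.Iic n) := by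
  obtain ⟨par, dep, h0, hp⟩ := exists_par hT (q 0)
  have key : ∀ k < n, par (q (k + 1)) = q k ∧ dep (q (k + 1)) = k + 1 := by
    intro k
    induction k with
    | zero =>
      intro hk
      rcases hp _ _ (h1 0 hk) with h | h
      · omega
      · exact ⟨h.1, by omega⟩
    | succ k ih =>
      intro hk
      obtain ⟨i1, i2⟩ := ih (by omega)
      rcases hp _ _ (h1 (k + 1) hk) with h | h
      · exact absurd (i1.symm.trans h.1) (h2 k (by omega))
      · exact ⟨h.1, by omega⟩
  have hd : ∀ k ≤ n, dep (q k) = k := by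
    intro k hk
    cases k with
    | zero => exact h0
    | succ k => exact (key k (by omega)).2
  intro a ha b hb hab
  rw [← hd a ha, ← hd b hb, hab]

omit [DecidableEq V] in
theorem trapped_iff [Fintype V] (hT : T.IsTree) (x : V) :
    Trapped T c x ↔ Iness T c univ x := by
  constructor
  · rintro ⟨n, i, q, hinj, hadj, hi1, hi2, rfl, c1, c2, c3, c4⟩
    have hne : ∀ k, k + 2 ≤ n → q k ≠ q (k + 2) := fun k hk h => by
      have := hinj (show k ≤ n by omega) (show k + 2 ≤ n from hk) h
      omega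
    have left : ∀ k, k + 2 ≤ n → Blk T c univ (q (k + 2)) (q (k + 1)) := by
      intro k
      induction k with
      | zero =>
        intro hk
        exact .base (mem_univ _) (mem_univ _) (mem_univ _) (hadj 1 (by omega)).symm
          (hadj 0 (by omega)).symm c2.symm c1.symm
      | succ k ih =>
        intro hk
        exact .step (mem_univ _) (hadj (k + 2) (by omega)).symm (ih (by omega))
          (hne (k + 1) (by omega))
    have right : ∀ d k, k + d + 2 = n → Blk T c univ (q k) (q (k + 1)) := by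
      intro d
      induction d with
      | zero =>
        intro k hk
        obtain rfl : n = k + 2 := by omega
        exact .base (mem_univ _) (mem_univ _) (mem_univ _) (hadj k (by omega))
          (hadj (k + 1) (by omega)) c4.symm c3.symm
      | succ d ih =>
        intro k hk
        exact .step (mem_univ _) (hadj k (by omega)) (ih (k + 1) (by omega))
          (hne k (by omega)).symm
    obtain ⟨j, rfl⟩ : ∃ j, i = j + 2 := ⟨i - 2, by omega⟩
    exact ⟨q (j + 1), q (j + 2 + 1), hne (j + 1) (by omega), left j (by omega),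
      right (n - (j + 2) - 2) (j + 2) (by omega)⟩
  · rintro ⟨u, u', hne, hb, hb'⟩
    obtain ⟨k, r, g0, g1, g2, g3, g4, g5⟩ := hb.seq
    obtain ⟨k', r', g0', g1', g2', g3', g4', g5'⟩ := hb'.seq
    let q : ℕ → V := fun j => if j ≤ k + 2 then r (k + 2 - j) else r' (j - (k + 2))
    have q1 : ∀ j a, j + a = k + 2 → q j = r a := by
      intro j a h
      simp only [q]
      rw [if_pos (by omega)]
      congr 1; omega
    have q2 : ∀ j a, j = k + 2 + a → q j = r' a := by
      intro j a h
      by_cases ha : a = 0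
      · subst ha
        rw [q1 j 0 (by omega), g0, g0']
      · simp only [q]
        rw [if_neg (by omega)]
        congr 1; omega
    have hadj : ∀ j < k + 2 + (k' + 2), T.Adj (q j) (q (j + 1)) := by
      intro j hj
      by_cases h : j < k + 2
      · rw [q1 j (k + 1 - j + 1) (by omega), q1 (j + 1) (k + 1 - j) (by omega)]
        exact (g2 _ (by omega)).symm
      · rw [q2 j (j - (k + 2)) (by omega), q2 (j + 1) (j - (k + 2) + 1) (by omega)]
        exact g2' _ (by omega)
    refine ⟨k + 2 + (k' + 2), k + 2, q, injOn_of_nb hT _ q hadj ?_, hadj, by omega, by omega,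
      ?_, ?_, ?_, ?_, ?_⟩
    · intro j hj
      rcases lt_trichotomy j (k + 1) with h | h | h
      · rw [q1 j (k - j + 2) (by omega), q1 (j + 2) (k - j) (by omega)]
        exact (g3 _ (by omega)).symm
      · rw [q1 j 1 (by omega), q2 (j + 2) 1 (by omega), g1, g1']
        exact hne
      · rw [q2 j (j - (k + 2)) (by omega), q2 (j + 2) (j - (k + 2) + 2) (by omega)]
        exact g3' _ (by omega)
    · rw [q1 _ 0 (by omega), g0]
    · rw [q1 0 (k + 2) (by omega), q1 1 (k + 1) (by omega)]; exact g4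
    · rw [q1 1 (k + 1) (by omega), q1 2 k (by omega)]; exact g5
    · rw [q2 _ (k' + 2) rfl, q2 _ (k' + 1) (by omega)]; exact g4'
    · rw [q2 _ (k' + 1) (by omega), q2 _ k' (by omega)]; exact g5'

theorem ncard_eq [Fintype V] (hT : T.IsTree) (p : Bool) :
    {x | ¬ Trapped T c x ∧ c x = p}.ncard = (ess T c univ p).card := by
  rw [← Set.ncard_coe_finset]
  congr 1
  ext x
  simp [ess, trapped_iff hT]

theorem main [Fintype V] [DecidableRel T.Adj] (hT : T.IsTree) (p : Bool) :
    LosesFirst T c p (univ, -(({x | ¬ Trapped T c x ∧ c x = true}.ncard : ℤ) -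
      ({x | ¬ Trapped T c x ∧ c x = false}.ncard : ℤ))) := by
  refine loses hT p _ _ le_rfl ?_
  rw [ncard_eq hT, ncard_eq hT]
  cases p <;> simp [val]

end Pool.Agent.Lib.MP_1304b2_co
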